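import Mathlib

set_option autoImplicit false

namespace Pool.Agent.Results.MP_975509_gt.Counter

open Set Metric GromovHausdorff

universe u

def m (p q : ℤ) : Fin 4 → Fin 4 → ℤ :=
  ![![0, 100, 140 + p, 170 + q], ![100, 0, 140 - p, 170 - q],
    ![140 + p, 140 - p, 0, 200], ![170 + q, 170 - q, 200, 0]]

def d : Fin 3 → Fin 4 → Fin 4 → ℤ := ![m 2 0, m 1 2, m (-1) 2]

def X (_ : Fin 3) : Type := Fin 4

instance (i : Fin 3) : MetricSpace (X i) where
  dist x y := d i x y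
  dist_self x := by exact_mod_cast (by decide : ∀ i x, d i x x = 0) i x
  dist_comm x y := by exact_mod_cast (by decide : ∀ i x y, d i x y = d i y x) i x y
  dist_triangle x y z := by
    exact_mod_cast (by decide +kernel : ∀ i x y z, d i x z ≤ d i x y + d i y z) i x y z
  eq_of_dist_eq_zero {x y} h :=
    (by decide : ∀ i x y, d i x y = 0 → x = y) i x y (by exact_mod_cast h)

instance (i : Fin 3) : Finite (X i) := inferInstanceAs (Finite (Fin 4))
instance (i : Fin 3) : Nonempty (X i) := inferInstanceAs (Nonempty (Fin 4))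

def σ : Fin 3 → Fin 4 → Fin 4 := ![id, id, ![1, 0, 2, 3]]

theorem result : ∃ (X : Fin 3 → Type) (_ : ∀ i, MetricSpace (X i)) (_ : ∀ i, CompactSpace (X i))
    (_ : ∀ i, Nonempty (X i)), ∀ (Z : Type u) [MetricSpace Z] (φ : ∀ i, X i → Z),
    (∀ i, Isometry (φ i)) →
      ∃ i j, ghDist (X i) (X j) < hausdorffDist (range (φ i)) (range (φ j)) := by
  refine ⟨X, inferInstance, inferInstance, inferInstance, fun Z _ φ hφ => ?_⟩
  by_contra h
  push Not at h
  have h1 : ∀ i (x : Fin 4), dist (φ i x) (φ (i + 1) (σ i x)) < 1.2 := by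
    intro i
    have h1 : ghDist (X i) (X (i + 1)) ≤ 0 + 2 / 2 + 0 :=
      ghDist_le_of_approx_subsets (X := X i) (Y := X (i + 1)) (s := univ) (fun x => σ i x.1)
        (fun x => ⟨x, trivial, by simp⟩) (fun x => ⟨⟨σ i x, trivial⟩, by
          rw [(by decide : ∀ i x, σ i (σ i x) = x)]; simp⟩) fun x y => by
          change |(d i x.1 y.1 : ℝ) - d (i + 1) (σ i x.1) (σ i y.1)| ≤ 2
          exact_mod_cast (by decide : ∀ i x y, |d i x y - d (i + 1) (σ i x) (σ i y)| ≤ 2) i x.1 y.1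
    have h2 : ∀ x : Fin 4, ∃ y : Fin 4, dist (φ i x) (φ (i + 1) y) < 1.2 := by
      intro x
      obtain ⟨_, ⟨y, rfl⟩, hy⟩ := exists_dist_lt_of_hausdorffDist_lt (mem_range_self (f := φ i) x)
        (((h i (i + 1)).trans h1).trans_lt (show _ < (1.2 : ℝ) by norm_num))
        (hausdorffEDist_ne_top_of_nonempty_of_bounded (range_nonempty _) (range_nonempty _)
          (finite_range _).isBounded (finite_range _).isBounded)
      exact ⟨y, hy⟩
    choose f hf using h2
    have h3 : ∀ x y, |d i x y - d (i + 1) (f x) (f y)| ≤ 2 := by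
      intro x y
      have e1 : (d i x y : ℝ) = _ := ((hφ i).dist_eq x y).symm
      have e2 : (d (i + 1) (f x) (f y) : ℝ) = _ := ((hφ (i + 1)).dist_eq _ _).symm
      have := dist_dist_dist_le (φ i x) (φ i y) (φ (i + 1) (f x)) (φ (i + 1) (f y))
      rw [Real.dist_eq, ← e1, ← e2] at this
      have h4 : |(d i x y : ℝ) - d (i + 1) (f x) (f y)| < 3 := by linarith [hf x, hf y]
      exact Int.lt_add_one_iff.1 (by exact_mod_cast h4)
    have h4 := (by decide +kernel : ∀ (i : Fin 3) (a b c e : Fin 4),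
      (∀ x y, |d i x y - d (i + 1) (![a, b, c, e] x) (![a, b, c, e] y)| ≤ 2) →
        ∀ x, ![a, b, c, e] x = σ i x) i (f 0) (f 1) (f 2) (f 3)
    have e : ![f 0, f 1, f 2, f 3] = f := by
      ext x
      fin_cases x <;> rfl
    rw [e] at h4
    exact fun x => h4 h3 x ▸ hf x
  have h2 := dist_triangle4 (φ 0 (0 : Fin 4)) (φ 1 (0 : Fin 4)) (φ 2 (0 : Fin 4)) (φ 0 (1 : Fin 4))
  have h3 : dist (φ 0 (0 : Fin 4)) (φ 0 (1 : Fin 4)) = ((100 : ℤ) : ℝ) := (hφ 0).dist_eq _ _
  have h4 : dist (φ 0 (0 : Fin 4)) (φ 1 (0 : Fin 4)) < 1.2 := h1 0 0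
  have h5 : dist (φ 1 (0 : Fin 4)) (φ 2 (0 : Fin 4)) < 1.2 := h1 1 0
  have h6 : dist (φ 2 (0 : Fin 4)) (φ 0 (1 : Fin 4)) < 1.2 := h1 2 0
  push_cast at h3
  linarith

end Pool.Agent.Results.MP_975509_gt.Counter
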